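import Mathlib

/-!
# Permutation cubes with a compatible operation

A family of permutation cubes of dimension at least two which is closed under a coordinatewise
operation that is bijective in two of its variables at one base point is, after relabelling the
coordinates and the values, a family of homomorphisms over one abelian group.
-/

set_option autoImplicit false

open Function

namespace Q123.VQ

/-- The binary case with units. -/
structure Unital {ι A : Type*} (f : ι → A → A → A) (o : ι → A) : Prop where
  left : ∀ i x, f i (o i) x = x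
  right : ∀ i x, f i x (o i) = x

/-- `C` is a permutation cube. -/
def Cube {ι A : Type*} [DecidableEq ι] (C : (ι → A) → A) : Prop :=
  ∀ (i : ι) (x : ι → A), Bijective (fun t => C (update x i t))

variable {ι A : Type*} [DecidableEq ι]

lemma Cube.surj {C : (ι → A) → A} (hC : Cube C) (i : ι) (x : ι → A) : Surjective C :=
  fun y => by
    obtain ⟨t, ht⟩ := (hC i x).2 y
    exact ⟨_, ht⟩

section unital

variable {f : ι → A → A → A} {o : ι → A} {C : (ι → A) → A} {g : A → A → A}

lemma op_update (hf : Unital f o) (i : ι) (x y : A) :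
    (fun l => f l (update o i x l) (update o i y l)) = update o i (f i x y) := by
  funext l
  by_cases h : l = i
  · subst h; simp
  · simp [h, hf.left]

lemma op_update_update (hf : Unital f o) {i i' : ι} (hi : i ≠ i') (x y : A) :
    (fun l => f l (update o i x l) (update o i' y l)) = update (update o i x) i' y := by
  funext l
  by_cases h : l = i
  · subst h
    simp [update_of_ne hi, hf.right]
  · by_cases h' : l = i'
    · subst h'
      simp [h, hf.left]
    · simp [h, h', hf.left]

lemma op_update_update' (hf : Unital f o) {i i' : ι} (hi : i ≠ i') (x y : A) :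
    (fun l => f l (update o i' y l) (update o i x l)) = update (update o i x) i' y := by
  funext l
  by_cases h : l = i
  · subst h
    simp [update_of_ne hi, hf.left]
  · by_cases h' : l = i'
    · subst h'
      simp [h, hf.right]
    · simp [h, h', hf.left]

variable (hf : Unital f o) (hC : Cube C)
  (hg : ∀ x y : ι → A, C (fun i => f i (x i) (y i)) = g (C x) (C y))

include hf hg in
lemma phi_hom (i : ι) (x y : A) :
    C (update o i (f i x y)) = g (C (update o i x)) (C (update o i y)) := by
  rw [← op_update hf, hg]

include hf hg in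
lemma phi_two {i i' : ι} (hi : i ≠ i') (x y : A) :
    g (C (update o i x)) (C (update o i' y)) = C (update (update o i x) i' y) := by
  rw [← hg, op_update_update hf hi]

include hf hg in
lemma phi_two' {i i' : ι} (hi : i ≠ i') (x y : A) :
    g (C (update o i' y)) (C (update o i x)) = C (update (update o i x) i' y) := by
  rw [← hg, op_update_update' hf hi]

include hf hC hg in
lemma g_comm {i i' : ι} (hi : i ≠ i') (a b : A) : g a b = g b a := by
  obtain ⟨x, rfl⟩ := (hC i o).2 a
  obtain ⟨y, rfl⟩ := (hC i' o).2 b
  simp only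
  rw [phi_two hf hg hi, phi_two' hf hg hi]

include hf hC hg in
lemma g_assoc {i i' : ι} (hi : i ≠ i') (a b c : A) : g (g a b) c = g a (g b c) := by
  have key : ∀ a b c, g (g a b) c = g (g a c) b := by
    intro a b c
    obtain ⟨x, rfl⟩ := (hC i o).2 a
    obtain ⟨y, rfl⟩ := (hC i' o).2 b
    obtain ⟨z, rfl⟩ := (hC i o).2 c
    simp only
    rw [phi_two hf hg hi, ← phi_hom hf hg i x z, phi_two hf hg hi, ← hg]
    congr 1
    funext l
    by_cases h : l = i'
    · subst h
      simp [update_of_ne (Ne.symm hi), hf.right]
    · by_cases h' : l = i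
      · subst h'
        simp [h]
      · simp [h, h', hf.left]
  rw [g_comm hf hC hg hi a b, key, g_comm hf hC hg hi a (g b c)]

include hf hC hg in
lemma g_zero (i : ι) (a : A) : g (C o) a = a := by
  obtain ⟨x, rfl⟩ := (hC i o).2 a
  have h := phi_hom hf hg i (o i) x
  rw [hf.left, update_eq_self] at h
  exact h.symm

include hf hC hg in
lemma g_surj {i i' : ι} (hi : i ≠ i') (a : A) : Surjective (g a) := by
  obtain ⟨x, rfl⟩ := (hC i o).2 a
  intro b
  obtain ⟨y, hy⟩ := (hC i' (update o i x)).2 b
  refine ⟨C (update o i' y), ?_⟩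
  simp only at hy ⊢
  rw [phi_two hf hg hi, hy]

end unital

/-- The group structure. -/
@[instance_reducible] noncomputable def grp (g : A → A → A) (z : A) (hcomm : ∀ a b, g a b = g b a)
    (hassoc : ∀ a b c, g (g a b) c = g a (g b c)) (hz : ∀ a, g z a = a)
    (hsurj : ∀ a, Surjective (g a)) : AddCommGroup A where
  add := g
  add_assoc := hassoc
  zero := z
  zero_add := hz
  add_zero := fun a => (hcomm a z).trans (hz a)
  nsmul := @nsmulRec A ⟨z⟩ ⟨g⟩
  neg := fun a => Classical.choose (hsurj a z)
  zsmul := @zsmulRec A ⟨z⟩ ⟨g⟩ ⟨fun a => Classical.choose (hsurj a z)⟩ (@nsmulRec A ⟨z⟩ ⟨g⟩)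
  neg_add_cancel := fun a => (hcomm _ _).trans (Classical.choose_spec (hsurj a z))
  add_comm := hcomm

/-- Unital operations: the family of cubes is a family of homomorphisms. -/
theorem unital_homomorphic {κ : Type*} [Fintype ι] {f : ι → A → A → A} {o : ι → A}
    (hf : Unital f o) {C : κ → (ι → A) → A} (hC : ∀ j, Cube (C j)) {g : κ → A → A → A}
    (hg : ∀ j (x y : ι → A), C j (fun i => f i (x i) (y i)) = g j (C j x) (C j y))
    {i₀ i₁ : ι} (hi : i₀ ≠ i₁) (j₀ : κ) :
    ∃ (_ : AddCommGroup A) (τ : ι → (A ≃ A)) (σ : κ → (A ≃ A)) (φ : κ → ι → (A →+ A)),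
      ∀ j x, σ j (C j x) = ∑ i, φ j i (τ i (x i)) := by
  classical
  let G : AddCommGroup A := grp (g j₀) (C j₀ o) (g_comm hf (hC j₀) (hg j₀) hi)
    (g_assoc hf (hC j₀) (hg j₀) hi) (g_zero hf (hC j₀) (hg j₀) i₀)
    (g_surj hf (hC j₀) (hg j₀) hi)
  have hadd : ∀ a b : A, a + b = g j₀ a b := fun _ _ => rfl
  let p : κ → ι → (A ≃ A) := fun j i => Equiv.ofBijective _ (hC j i o)
  have hp : ∀ j i x, p j i x = C j (update o i x) := fun _ _ _ => rfl
  have hpadd : ∀ j i x y, p j i (f i x y) = g j (p j i x) (p j i y) := by
    intro j i x y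
    rw [hp, hp, hp, phi_hom hf (hg j)]
  let τ : ι → (A ≃ A) := fun i => p j₀ i
  have hτ : ∀ i x y, τ i (f i x y) = τ i x + τ i y := by
    intro i x y
    rw [hadd]
    exact hpadd j₀ i x y
  have hτs : ∀ i a b, (τ i).symm (a + b) = f i ((τ i).symm a) ((τ i).symm b) := by
    intro i a b
    rw [Equiv.symm_apply_eq, hτ, Equiv.apply_symm_apply, Equiv.apply_symm_apply]
  let σ : κ → (A ≃ A) := fun j => (p j i₀).symm.trans (p j₀ i₀)
  have hσ : ∀ j a b, σ j (g j a b) = σ j a + σ j b := by
    intro j a b
    have h1 : (p j i₀).symm (g j a b) = f i₀ ((p j i₀).symm a) ((p j i₀).symm b) := by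
      rw [Equiv.symm_apply_eq, hpadd, Equiv.apply_symm_apply, Equiv.apply_symm_apply]
    change p j₀ i₀ ((p j i₀).symm (g j a b)) = _
    rw [h1, hpadd]
    rfl
  let Ψ : κ → ((ι → A) →+ A) := fun j => AddMonoidHom.mk'
    (fun u => σ j (C j (fun i => (τ i).symm (u i)))) (by
      intro u v
      have h1 : (fun i => (τ i).symm ((u + v) i)) =
          fun i => f i ((fun l => (τ l).symm (u l)) i) ((fun l => (τ l).symm (v l)) i) := by
        funext i
        exact hτs i (u i) (v i)
      rw [h1, hg, hσ])
  refine ⟨G, τ, σ, fun j i => (Ψ j).comp (AddMonoidHom.single (fun _ => A) i), ?_⟩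
  intro j x
  have h1 : σ j (C j x) = Ψ j (fun i => τ i (x i)) := by
    change _ = σ j (C j (fun i => (τ i).symm (τ i (x i))))
    simp only [Equiv.symm_apply_apply]
  rw [h1]
  have h2 : (fun i => τ i (x i)) = ∑ i, Pi.single i (τ i (x i)) :=
    (Finset.univ_sum_single _).symm
  conv_lhs => rw [h2]
  rw [map_sum]
  rfl

/-- The data of a compatible operation of arity `r`: `F i` acts on the symbols of the coordinate
`i`, `H j` on the symbols of the cube `j`, and for some base point `e` the functions `F i` are
bijective in the variables `s` and `t`. -/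
def Compatible {κ A : Type*} {r : ℕ} (C : κ → (ι → A) → A) (F : ι → (Fin r → A) → A)
    (H : κ → (Fin r → A) → A) (s t : Fin r) (e : ι → A) : Prop :=
  s ≠ t ∧ (∀ i, Bijective fun x => F i (update (fun _ => e i) s x)) ∧
    (∀ i, Bijective fun x => F i (update (fun _ => e i) t x)) ∧
    ∀ j (X : Fin r → ι → A), C j (fun i => F i (fun a => X a i)) = H j (fun a => C j (X a))

theorem compatible_homomorphic {κ A : Type*} [Finite A] [Fintype ι] {r : ℕ} {C : κ → (ι → A) → A}
    (hC : ∀ j, Cube (C j)) {F : ι → (Fin r → A) → A} {H : κ → (Fin r → A) → A} {s t : Fin r}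
    {e : ι → A} (h : Compatible C F H s t e) {i₀ i₁ : ι} (hi : i₀ ≠ i₁) (j₀ : κ) :
    ∃ (_ : AddCommGroup A) (τ : ι → (A ≃ A)) (σ : κ → (A ≃ A)) (φ : κ → ι → (A →+ A)),
      ∀ j x, σ j (C j x) = ∑ i, φ j i (τ i (x i)) := by
  classical
  obtain ⟨hst, hR, hL, hcomp⟩ := h
  -- the binary operation
  let b : ι → A → A → A := fun i x y => F i (update (update (fun _ => e i) s x) t y)
  let c : κ → A := fun j => C j e
  let g : κ → A → A → A := fun j x y => H j (update (update (fun _ => c j) s x) t y)
  have hbR : ∀ i, Bijective (fun x => b i x (e i)) := by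
    intro i
    have h1 : (fun x => b i x (e i)) = fun x => F i (update (fun _ => e i) s x) := by
      funext x
      simp only [b]
      congr 1
      funext a
      by_cases h : a = t
      · subst h; simp [update_of_ne hst.symm]
      · simp [h]
    rw [h1]; exact hR i
  have hbL : ∀ i, Bijective (fun y => b i (e i) y) := by
    intro i
    have h1 : (fun y => b i (e i) y) = fun y => F i (update (fun _ => e i) t y) := by
      funext x
      simp only [b]
      congr 1
      funext a
      by_cases h : a = t
      · subst h; simp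
      · by_cases h' : a = s
        · subst h'; simp [h]
        · simp [h, h']
    rw [h1]; exact hL i
  have hbC : ∀ j (x y : ι → A), C j (fun i => b i (x i) (y i)) = g j (C j x) (C j y) := by
    intro j x y
    have h1 := hcomp j (update (update (fun _ => e) s x) t y)
    have h2 : ∀ i, (fun a => (update (update (fun _ => e) s x) t y : Fin r → ι → A) a i) =
        update (update (fun _ => e i) s (x i)) t (y i) := by
      intro i
      funext a
      by_cases h : a = t
      · subst h; simp
      · by_cases h' : a = s
        · subst h'; simp [h]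
        · simp [h, h']
    have h3 : (fun a => C j ((update (update (fun _ => e) s x) t y : Fin r → ι → A) a)) =
        update (update (fun _ => c j) s (C j x)) t (C j y) := by
      funext a
      by_cases h : a = t
      · subst h; simp
      · by_cases h' : a = s
        · subst h'; simp [h]
        · simp [h, h', c]
    rw [h3] at h1
    simp only [h2] at h1
    exact h1
  -- the unital operations
  let R : ι → (A ≃ A) := fun i => Equiv.ofBijective _ (hbR i)
  let L : ι → (A ≃ A) := fun i => Equiv.ofBijective _ (hbL i)
  have hRdef : ∀ i x, R i x = b i x (e i) := fun _ _ => rfl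
  have hLdef : ∀ i x, L i x = b i (e i) x := fun _ _ => rfl
  have hRC : ∀ j (x : ι → A), C j (fun i => R i (x i)) = g j (C j x) (c j) := by
    intro j x
    have := hbC j x e
    exact this
  have hLC : ∀ j (x : ι → A), C j (fun i => L i (x i)) = g j (c j) (C j x) := by
    intro j x
    have := hbC j e x
    exact this
  have hRsurj : ∀ j, Bijective (fun z => g j z (c j)) := by
    intro j
    rw [← Finite.surjective_iff_bijective]
    intro z
    obtain ⟨x, hx⟩ := (hC j).surj i₀ e z
    refine ⟨C j (fun i => (R i).symm (x i)), ?_⟩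
    simp only
    rw [← hRC]
    simp only [Equiv.apply_symm_apply]
    exact hx
  have hLsurj : ∀ j, Bijective (fun z => g j (c j) z) := by
    intro j
    rw [← Finite.surjective_iff_bijective]
    intro z
    obtain ⟨x, hx⟩ := (hC j).surj i₀ e z
    refine ⟨C j (fun i => (L i).symm (x i)), ?_⟩
    simp only
    rw [← hLC]
    simp only [Equiv.apply_symm_apply]
    exact hx
  let R' : κ → (A ≃ A) := fun j => Equiv.ofBijective _ (hRsurj j)
  let L' : κ → (A ≃ A) := fun j => Equiv.ofBijective _ (hLsurj j)
  have hR'C : ∀ j (x : ι → A), C j (fun i => R i (x i)) = R' j (C j x) := hRC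
  have hL'C : ∀ j (x : ι → A), C j (fun i => L i (x i)) = L' j (C j x) := hLC
  have hRs : ∀ j (x : ι → A), C j (fun i => (R i).symm (x i)) = (R' j).symm (C j x) := by
    intro j x
    rw [Equiv.eq_symm_apply, ← hR'C]
    simp only [Equiv.apply_symm_apply]
  have hLs : ∀ j (x : ι → A), C j (fun i => (L i).symm (x i)) = (L' j).symm (C j x) := by
    intro j x
    rw [Equiv.eq_symm_apply, ← hL'C]
    simp only [Equiv.apply_symm_apply]
  let f' : ι → A → A → A := fun i x y => b i ((R i).symm x) ((L i).symm y)
  let o : ι → A := fun i => b i (e i) (e i)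
  let g' : κ → A → A → A := fun j x y => g j ((R' j).symm x) ((L' j).symm y)
  have hunital : Unital f' o := by
    constructor
    · intro i x
      have h1 : (R i).symm (o i) = e i := by rw [Equiv.symm_apply_eq]; rfl
      simp only [f']
      rw [h1, ← hLdef, Equiv.apply_symm_apply]
    · intro i x
      have h1 : (L i).symm (o i) = e i := by rw [Equiv.symm_apply_eq]; rfl
      simp only [f']
      rw [h1, ← hRdef, Equiv.apply_symm_apply]
  refine unital_homomorphic hunital hC (g := g') ?_ hi j₀
  intro j x y
  simp only [f', g']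
  rw [hbC j (fun i => (R i).symm (x i)) (fun i => (L i).symm (y i)), hRs, hLs]

end Q123.VQ
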