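import Pool.Agent.Q123.VQ.Core
import Pool.Agent.Y347.AG.Final

/-!
# Variational sets with a compatible operation
-/

set_option autoImplicit false

open Function

namespace Q123.VQ

open Pool.Agent.H430R2.PermCubes Pool.Agent.Y347.VL Pool.Agent.Y347.AG

/-- The family of cubes has a compatible operation. -/
def HasOp {m n k : ℕ} (C : Fin k → (Fin m → Fin n) → Fin n) : Prop :=
  ∃ (r : ℕ) (s t : Fin r) (F : Fin m → (Fin r → Fin n) → Fin n)
    (H : Fin k → (Fin r → Fin n) → Fin n) (e : Fin m → Fin n), Compatible C F H s t e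

theorem homomorphic_of_op {m n k : ℕ} (hm : 2 ≤ m) (hn : 1 ≤ n)
    (C : Fin k → (Fin m → Fin n) → Fin n) (hC : ∀ j, IsPermutationCube m n (C j)) (h : HasOp C) :
    ∃ (G : Type) (_ : AddCommGroup G), Nat.card G = n ∧ IsHomomorphic G m n k C := by
  rcases Nat.eq_zero_or_pos k with hk | hk
  · subst hk
    have : NeZero n := ⟨by omega⟩
    refine ⟨ZMod n, inferInstance, Nat.card_zmod n, ?_⟩
    let β : Fin n ≃ ZMod n := (Fintype.equivFinOfCardEq (ZMod.card n)).symm
    exact ⟨fun _ => β, fun _ => β, fun j => j.elim0, fun j => j.elim0⟩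
  · obtain ⟨r, s, t, F, H, e, h⟩ := h
    have hi : (⟨0, by omega⟩ : Fin m) ≠ ⟨1, by omega⟩ := by
      intro h; simp at h
    obtain ⟨G, τ, σ, φ, h⟩ := compatible_homomorphic (C := C) hC h hi ⟨0, hk⟩
    exact ⟨Fin n, G, by simp, τ, σ, φ, h⟩

theorem op_of_homomorphic {m n k : ℕ} (hn : 1 ≤ n) (C : Fin k → (Fin m → Fin n) → Fin n)
    (G : Type) [AddCommGroup G] (h : IsHomomorphic G m n k C) : HasOp C := by
  obtain ⟨τ, σ, φ, h⟩ := h
  refine ⟨2, 0, 1, fun i z => (τ i).symm (τ i (z 0) + τ i (z 1)),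
    fun j z => (σ j).symm (σ j (z 0) + σ j (z 1)), fun _ => ⟨0, hn⟩, by decide, ?_, ?_, ?_⟩
  · intro i
    simp only [update_self, ne_eq, one_ne_zero, not_false_eq_true, update_of_ne]
    exact (τ i).symm.bijective.comp ((Equiv.addRight _).bijective.comp (τ i).bijective)
  · intro i
    simp only [update_self, ne_eq, zero_ne_one, not_false_eq_true, update_of_ne]
    exact (τ i).symm.bijective.comp ((Equiv.addLeft _).bijective.comp (τ i).bijective)
  · intro j X
    simp only
    rw [Equiv.eq_symm_apply, h, h, h, ← Finset.sum_add_distrib]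
    refine Finset.sum_congr rfl fun i _ => ?_
    rw [Equiv.apply_symm_apply, map_add]

/-- The prime powers which divide `n` exactly. -/
def exact (n : ℕ) : Set ℕ := {q | ∃ p : ℕ, p.Prime ∧ p ∣ n ∧ q = p ^ n.factorization p}

lemma covered_of_le {m p r a : ℕ} (hp : p.Prime) (hr : r ≠ 0) (hra : r ≤ a)
    (h : Covered' m (p ^ a)) : Covered' m (p ^ r) := by
  have hle : p ^ r ≤ p ^ a := Nat.pow_le_pow_right hp.pos hra
  rcases h with h | h | h | h | ⟨h, h'⟩
  · exact Or.inl h
  · exact Or.inr (Or.inl h)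
  · exact Or.inr (Or.inr (Or.inl (hle.trans h)))
  · have h1 : a = 1 := Nat.Prime.eq_one_of_pow h
    have h2 : r = 1 := by omega
    subst h1 h2
    exact Or.inr (Or.inr (Or.inr (Or.inl h)))
  · refine Or.inr (Or.inr (Or.inr (Or.inr ⟨?_, hle.trans h'⟩)))
    have h1 : 2 ∣ p ^ a := Nat.dvd_of_mod_eq_zero h
    have h2 : 2 ∣ p := Nat.prime_two.dvd_of_dvd_pow h1
    exact Nat.mod_eq_zero_of_dvd (dvd_pow h2 hr)

lemma value_mono {m p r a : ℕ} (hm : 2 ≤ m) (hp : p.Prime) (hr : r ≠ 0) (hra : r ≤ a) :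
    value m (p ^ r) ≤ value m (p ^ a) := by
  rcases eq_or_lt_of_le hra with h | h
  · rw [h]
  · have h1 : 2 * p ^ r ≤ p ^ a := by
      calc 2 * p ^ r ≤ p * p ^ r := Nat.mul_le_mul_right _ hp.two_le
        _ = p ^ (r + 1) := by rw [pow_succ]; ring
        _ ≤ p ^ a := Nat.pow_le_pow_right hp.pos h
    have h2 : 2 ≤ p ^ r := by
      calc 2 ≤ p := hp.two_le
        _ ≤ p ^ r := Nat.le_self_pow hr p
    unfold value
    set x := p ^ r
    set y := p ^ a
    split_ifs <;> omega

theorem le_value {m n k q : ℕ} (hm : 2 ≤ m) (hn : 2 ≤ n) (G : Type) [AddCommGroup G]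
    (hG : Nat.card G = n) (hk : k ∈ GSizes G m n) (hq : IsLeast (exact n) q)
    (hc : Covered' m q) : k ≤ value m q := by
  classical
  have : Finite G := Nat.finite_of_card_ne_zero (by omega)
  obtain ⟨J, _, P, E, R, hD⟩ := exists_decomp G
  obtain ⟨hP, hE, hR, hinj, ⟨iso⟩⟩ := id hD
  obtain ⟨p, hp, hpn, rfl⟩ := hq.1
  have hcard : n = ∏ c, (P c ^ E c) ^ R c := by
    rw [← hG, Nat.card_congr iso.toEquiv]
    have : ∀ c, NeZero (P c) := fun c => ⟨(hP c).ne_zero⟩
    have : ∀ c, NeZero (P c ^ E c) := fun c => ⟨pow_ne_zero _ (NeZero.ne (P c))⟩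
    rw [Nat.card_eq_fintype_card]
    simp [Fintype.card_pi, ZMod.card]
  obtain ⟨c, hc1⟩ : ∃ c, P c = p := by
    rw [hcard] at hpn
    obtain ⟨c, -, h1⟩ := (Prime.dvd_finsetProd_iff hp.prime _).1 hpn
    exact ⟨c, ((Nat.prime_dvd_prime_iff_eq hp (hP c)).1
      (hp.dvd_of_dvd_pow (hp.dvd_of_dvd_pow h1))).symm⟩
  have hle : R c ≤ n.factorization p := by
    have h1 : p ^ (E c * R c) ∣ n := by
      rw [hcard, pow_mul, ← hc1]
      exact Finset.dvd_prod_of_mem _ (Finset.mem_univ c)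
    have h2 : E c * R c ≤ n.factorization p :=
      (hp.pow_dvd_iff_le_factorization (by omega)).1 h1
    have h3 : R c ≤ E c * R c := Nat.le_mul_of_pos_left _ (Nat.pos_of_ne_zero (hE c))
    exact h3.trans h2
  have h4 : k ∈ GSizes (Fin (R c) → ZMod (P c)) m (P c ^ R c) := by
    have h5 := (hD.iff m k).1 (by rw [hG]; exact hk)
    exact h5 c
  have : Fact (P c).Prime := ⟨hP c⟩
  rw [mem_gsizes_iff (by simp [Nat.card_eq_fintype_card, ZMod.card])] at h4
  have h6 := homSet_le (hP c) (hR c) hm (by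
    rw [hc1]; exact covered_of_le hp (hR c) hle hc) h4
  rw [hc1] at h6
  exact h6.trans (value_mono hm hp (hR c) hle)

theorem value_mem {m n q : ℕ} (hm : 2 ≤ m) (hn : 2 ≤ n) (hq : IsLeast (exact n) q) :
    ∃ (G : Type) (_ : AddCommGroup G), Nat.card G = n ∧ value m q ∈ GSizes G m n := by
  classical
  let J := n.primeFactors
  let p : J → ℕ := fun c => (c : ℕ)
  let r : J → ℕ := fun c => n.factorization (c : ℕ)
  have hp : ∀ c : J, (p c).Prime := fun c => Nat.prime_of_mem_primeFactors c.2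
  have : ∀ c : J, NeZero (p c ^ 1) := fun c => ⟨pow_ne_zero _ (hp c).ne_zero⟩
  let G := ∀ c : J, Fin (r c) → ZMod (p c ^ 1)
  have hD : Decomp G p (fun _ => 1) r := by
    refine ⟨hp, fun _ => one_ne_zero, ?_, ?_, ⟨AddEquiv.refl _⟩⟩
    · intro c h
      have h1 := (hp c).factorization_pos_of_dvd (show n ≠ 0 by omega)
        (Nat.dvd_of_mem_primeFactors c.2)
      exact h1.ne' h
    · intro a b hab
      simp only [Prod.mk.injEq, and_true] at hab
      exact Subtype.ext hab
  have hcard : Nat.card G = n := by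
    rw [Nat.card_eq_fintype_card]
    have h1 : Fintype.card G = ∏ c : J, p c ^ r c := by
      simp [G, Fintype.card_pi, ZMod.card]
    rw [h1]
    have h2 := Nat.prod_factorization_pow_eq_self (n := n) (by omega)
    conv_rhs => rw [← h2]
    rw [Finsupp.prod, Nat.support_factorization]
    exact Finset.prod_coe_sort n.primeFactors (fun c => c ^ n.factorization c)
  refine ⟨G, inferInstance, hcard, ?_⟩
  have hq' : IsLeast (Set.range fun c => p c ^ r c) q := by
    have : (Set.range fun c => p c ^ r c) = exact n := by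
      ext x
      constructor
      · rintro ⟨c, rfl⟩
        exact ⟨c, hp c, Nat.dvd_of_mem_primeFactors c.2, rfl⟩
      · rintro ⟨y, hy, hyn, rfl⟩
        exact ⟨⟨y, Nat.mem_primeFactors.2 ⟨hy, hyn, by omega⟩⟩, rfl⟩
    rw [this]; exact hq
  have := hD.mem hm hq'
  rwa [hcard] at this

end Q123.VQ
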